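import Pool.Agent.Helper10.SP.GoalsA

/-!
# Packet KV: the kernel field
-/

open Complex Metric Set Filter Topology MeasureTheory
open scoped ContDiff ComplexConjugate ComplexOrder Manifold Matrix

namespace Pool.Agent.Helper31.SP

open Pool.Agent.Helper95.Lin Pool.Agent.Helper16.Abund Pool.Agent.Helper92.Orb
open Pool.Agent.Helper10.SP

lemma star_mulVec {n : ℕ} (H : Matrix (Fin n) (Fin n) ℂ) (e : Cn n) :
    star e ⬝ᵥ (Hᵀ *ᵥ e) = hermi H e e := by
  simp only [dotProduct, Matrix.mulVec, Matrix.transpose_apply, hermi, Finset.mul_sum,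
    Pi.star_apply, RCLike.star_def]
  rw [Finset.sum_comm]
  refine Finset.sum_congr rfl (fun i _ => Finset.sum_congr rfl (fun j _ => ?_))
  ring

/-- Linear algebra of a semidefinite matrix with one-dimensional kernel. -/
lemma core {m : ℕ} (H : Matrix (Fin (m + 1)) (Fin (m + 1)) ℂ) (hH : H.IsHermitian)
    (L : Cn (m + 1) → ℝ) (hL : ∀ e, ((L e : ℝ) : ℂ) = hermi H e e) (hpos : ∀ e, 0 ≤ L e)
    (e₀ : Cn (m + 1)) (he₀ : e₀ ≠ 0) (hk : ∀ e, L e = 0 ↔ ∃ c : ℂ, e = c • e₀) :
    (∃ i, H.adjugate i i ≠ 0) ∧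
    (∀ i, (H.adjugate i i).im = 0 ∧ 0 ≤ (H.adjugate i i).re) ∧
    ∀ i, H.adjugate i i ≠ 0 →
      (∀ k, ∑ j, H j k * (H.adjugate i j / H.adjugate i i) = 0) ∧
      (∀ e : Cn (m + 1), (∀ k, ∑ j, H j k * e j = 0) →
        ∃ c : ℂ, e = c • (fun j => H.adjugate i j / H.adjugate i i)) ∧
      ∀ e : Cn (m + 1), L e = 0 ↔ ∃ c : ℂ, e = c • (fun j => H.adjugate i j / H.adjugate i i) := by
  have hG : Hᵀ.PosSemidef := by
    refine Matrix.PosSemidef.of_dotProduct_mulVec_nonneg hH.transpose (fun e => ?_)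
    rw [star_mulVec, ← hL]
    exact_mod_cast hpos e
  have hH' : H.PosSemidef := by
    have := hG.transpose
    rwa [Matrix.transpose_transpose] at this
  have hker : ∀ e : Cn (m + 1), Hᵀ *ᵥ e = 0 ↔ L e = 0 := by
    intro e
    rw [← hG.dotProduct_mulVec_zero_iff, star_mulVec, ← hL]
    exact_mod_cast Iff.rfl
  have hsum : ∀ e : Cn (m + 1), Hᵀ *ᵥ e = 0 ↔ ∀ k, ∑ j, H j k * e j = 0 := by
    intro e
    rw [funext_iff]
    simp only [Matrix.mulVec, dotProduct, Matrix.transpose_apply, Pi.zero_apply]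
  have hdet : H.det = 0 := by
    rw [← Matrix.det_transpose, ← Matrix.exists_mulVec_eq_zero_iff]
    exact ⟨e₀, he₀, (hker e₀).2 ((hk e₀).2 ⟨1, by simp⟩)⟩
  have hrow : ∀ i, ∃ c : ℂ, (fun j => H.adjugate i j) = c • e₀ := by
    intro i
    rw [← hk, ← hker, hsum]
    intro k
    have := congrFun (congrFun (Matrix.adjugate_mul H) i) k
    rw [Matrix.mul_apply, hdet, zero_smul] at this
    simp only [Matrix.zero_apply] at this
    rw [← this]
    refine Finset.sum_congr rfl (fun j _ => ?_)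
    ring
  have hadj : ∀ i, H.adjugate i i = (H.submatrix i.succAbove i.succAbove).det := by
    intro i
    rw [Matrix.adjugate_fin_succ_eq_det_submatrix]
    rw [← two_mul, pow_mul]
    simp
  refine ⟨?_, ?_, ?_⟩
  · -- some cofactor is nonzero
    obtain ⟨i, hi⟩ : ∃ i, e₀ i ≠ 0 := by
      by_contra h
      push Not at h
      exact he₀ (funext h)
    refine ⟨i, ?_⟩
    rw [hadj]
    intro h0
    rw [← Matrix.det_transpose, ← Matrix.exists_mulVec_eq_zero_iff] at h0
    obtain ⟨f, hf, hf0⟩ := h0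
    have hins : L (i.insertNth 0 f) = 0 := by
      have h1 := hL (i.insertNth (α := fun _ => ℂ) 0 f)
      have h2 : hermi H (i.insertNth (α := fun _ => ℂ) 0 f) (i.insertNth (α := fun _ => ℂ) 0 f) =
          hermi (H.submatrix i.succAbove i.succAbove) f f := by
        unfold hermi
        rw [Fin.sum_univ_succAbove _ i]
        simp only [Fin.insertNth_apply_same, mul_zero, zero_mul, Finset.sum_const_zero, zero_add]
        refine Finset.sum_congr rfl (fun a _ => ?_)
        rw [Fin.sum_univ_succAbove _ i]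
        simp only [Fin.insertNth_apply_same, map_zero, mul_zero, zero_add,
          Fin.insertNth_apply_succAbove, Matrix.submatrix_apply]
      rw [h2, ← star_mulVec, hf0, dotProduct_zero] at h1
      exact_mod_cast h1
    obtain ⟨c, hc⟩ := (hk _).1 hins
    have hc0 : c = 0 := by
      have := congrFun hc i
      rw [Fin.insertNth_apply_same] at this
      simp only [Pi.smul_apply, smul_eq_mul] at this
      rcases mul_eq_zero.1 this.symm with h | h
      · exact h
      · exact absurd h hi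
    apply hf
    funext a
    have := congrFun hc (i.succAbove a)
    rw [Fin.insertNth_apply_succAbove, hc0, zero_smul] at this
    exact this
  · intro i
    have h1 : 0 ≤ H.adjugate i i := by
      rw [hadj]
      exact (hH'.submatrix _).det_nonneg
    rw [Complex.le_def] at h1
    simp only [zero_re, zero_im] at h1
    exact ⟨h1.2.symm, h1.1⟩
  · intro i hi
    obtain ⟨c, hc⟩ := hrow i
    have hc0 : c ≠ 0 := by
      rintro rfl
      apply hi
      have := congrFun hc i
      simpa using this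
    have hv : (fun j => H.adjugate i j / H.adjugate i i) = (c / H.adjugate i i) • e₀ := by
      funext j
      have := congrFun hc j
      simp only [Pi.smul_apply, smul_eq_mul] at this ⊢
      rw [this]
      ring
    have hd0 : c / H.adjugate i i ≠ 0 := div_ne_zero hc0 hi
    have hL0 : ∀ e : Cn (m + 1), L e = 0 ↔
        ∃ c : ℂ, e = c • (fun j => H.adjugate i j / H.adjugate i i) := by
      intro e
      rw [hk, hv]
      constructor
      · rintro ⟨d, rfl⟩
        refine ⟨d / (c / H.adjugate i i), ?_⟩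
        rw [smul_smul, div_mul_cancel₀ _ hd0]
      · rintro ⟨d, rfl⟩
        exact ⟨d * (c / H.adjugate i i), by rw [smul_smul]⟩
    refine ⟨?_, ?_, hL0⟩
    · rw [← hsum (fun j => H.adjugate i j / H.adjugate i i), hker, hL0]
      exact ⟨1, by simp⟩
    · intro e he
      rw [← hL0, ← hker, hsum]
      exact he

lemma contDiffOn_det {n N : ℕ} {W : Set (Cn n)} {A : Cn n → Matrix (Fin N) (Fin N) ℂ}
    (hA : ∀ j k, ContDiffOn ℝ ∞ (fun x => A x j k) W) :
    ContDiffOn ℝ ∞ (fun x => (A x).det) W := by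
  simp only [Matrix.det_apply]
  apply ContDiffOn.sum
  intro σ _
  have h1 : ContDiffOn ℝ ∞ (fun x => ∏ i, A x (σ i) i) W := by
    apply contDiffOn_prod
    intro i _
    exact hA _ _
  have h2 : (fun x => Equiv.Perm.sign σ • ∏ i, A x (σ i) i) =
      fun x => (((Equiv.Perm.sign σ : ℤ) : ℂ)) * ∏ i, A x (σ i) i := by
    funext x
    rw [Units.smul_def, zsmul_eq_mul]
  rw [h2]
  exact contDiffOn_const.mul h1

lemma contDiffOn_adjugate {n N : ℕ} {W : Set (Cn n)} {A : Cn n → Matrix (Fin N) (Fin N) ℂ}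
    (hA : ∀ j k, ContDiffOn ℝ ∞ (fun x => A x j k) W) (i j : Fin N) :
    ContDiffOn ℝ ∞ (fun x => (A x).adjugate i j) W := by
  simp only [Matrix.adjugate_apply]
  apply contDiffOn_det
  intro a b
  by_cases h : a = j
  · subst h
    simp only [Matrix.updateRow_self]
    exact contDiffOn_const
  · simp only [Matrix.updateRow_ne h]
    exact hA a b

theorem kv (hLMF : S_LMF) : S_KV := by
  intro n W hW Φ hΦ hC
  obtain ⟨hsm, hherm, hlev, -⟩ := hLMF W hW Φ hΦ
  have hadjs : ∀ i j, ContDiffOn ℝ ∞ (fun x => (LM Φ x).adjugate i j) W :=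
    fun i j => contDiffOn_adjugate hsm i j
  have hopen : ∀ i, IsOpen (Wi i Φ W) := by
    intro i
    have := (hadjs i i).continuousOn.isOpen_inter_preimage hW isOpen_ne (t := {z : ℂ | z ≠ 0})
    exact this
  have hcore : ∀ x ∈ W, (∃ i, (LM Φ x).adjugate i i ≠ 0) ∧
    (∀ i, ((LM Φ x).adjugate i i).im = 0 ∧ 0 ≤ ((LM Φ x).adjugate i i).re) ∧
    ∀ i, (LM Φ x).adjugate i i ≠ 0 →
      (∀ k, ∑ j, (LM Φ x) j k * ((LM Φ x).adjugate i j / (LM Φ x).adjugate i i) = 0) ∧
      (∀ e : Cn n, (∀ k, ∑ j, (LM Φ x) j k * e j = 0) →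
        ∃ c : ℂ, e = c • (fun j => (LM Φ x).adjugate i j / (LM Φ x).adjugate i i)) ∧
      ∀ e : Cn n, lev Φ x e = 0 ↔
        ∃ c : ℂ, e = c • (fun j => (LM Φ x).adjugate i j / (LM Φ x).adjugate i i) := by
    intro x hx
    obtain ⟨hpos, e₀, he₀, hk⟩ := hC x hx
    rcases n with _ | m
    · exact absurd (Subsingleton.elim e₀ 0) he₀
    · exact core (LM Φ x) (hherm x hx) (lev Φ x) (hlev x hx) hpos e₀ he₀ hk
  refine ⟨?_, ?_, ?_, ?_⟩
  · intro x hx
    obtain ⟨i, hi⟩ := (hcore x hx).1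
    exact ⟨i, hx, hi⟩
  · intro x hx
    exact (hcore x hx).2.1
  · intro i
    refine ⟨hopen i, ?_⟩
    rw [contDiffOn_pi]
    intro j
    unfold Pool.Agent.Helper10.SP.kv
    simp only [div_eq_mul_inv]
    have hsub : Wi i Φ W ⊆ W := fun x hx => hx.1
    exact ((hadjs i j).mono hsub).mul (((hadjs i i).mono hsub).inv (fun x hx => hx.2))
  · intro i x hx
    obtain ⟨h1, h2, h3⟩ := (hcore x hx.1).2.2 i hx.2
    refine ⟨div_self hx.2, h1, h2, h3⟩

end Pool.Agent.Helper31.SP
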