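import Pool.Agent.Helper10.SP.GoalsA
import Pool.Agent.Helper10.Abund.OpenSub
import Pool.Agent.Helper9.Lin.Lev
import Pool.Agent.Helper16.Abund.Semi
import Pool.Agent.Helper95.Lin.Basics

/-!
# Packet SPEC: special charts exist
-/

open Complex Metric Set Filter Topology MeasureTheory
open scoped ContDiff ComplexConjugate ComplexOrder Manifold Matrix

namespace Pool.Agent.Helper31.SP

open Pool.Agent.Helper95.Lin Pool.Agent.Helper16.Abund Pool.Agent.Helper92.Orb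
open Pool.Agent.Helper10.SP

universe u v

section lev

variable {n : ℕ}

lemma hess_add {φ ψ : Cn n → ℝ} {W : Set (Cn n)} (hW : IsOpen W) (hφ : ContDiffOn ℝ ∞ φ W)
    (hψ : ContDiffOn ℝ ∞ ψ W) {x : Cn n} (hx : x ∈ W) (a b : Cn n) :
    hess (fun y => φ y + ψ y) x a b = hess φ x a b + hess ψ x a b := by
  have hd : ∀ {f : Cn n → ℝ}, ContDiffOn ℝ ∞ f W → ∀ y ∈ W, DifferentiableAt ℝ f y := by
    intro f hf y hy
    exact (hf.differentiableOn (by simp)).differentiableAt (hW.mem_nhds hy)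
  have hd2 : ∀ {f : Cn n → ℝ}, ContDiffOn ℝ ∞ f W →
      DifferentiableAt ℝ (fun y => fderiv ℝ f y b) x := by
    intro f hf
    have h1 : ContDiffOn ℝ ∞ (fderiv ℝ f) W := hf.fderiv_of_isOpen hW (by simp)
    have h2 : DifferentiableAt ℝ (fderiv ℝ f) x :=
      (h1.differentiableOn (by simp)).differentiableAt (hW.mem_nhds hx)
    exact h2.clm_apply (differentiableAt_const _)
  unfold hess
  have h1 : (fun y => fderiv ℝ (fun y => φ y + ψ y) y b) =ᶠ[𝓝 x]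
      fun y => fderiv ℝ φ y b + fderiv ℝ ψ y b := by
    filter_upwards [hW.mem_nhds hx] with y hy
    rw [fderiv_fun_add (hd hφ y hy) (hd hψ y hy)]
    rfl
  rw [h1.fderiv_eq, fderiv_fun_add (hd2 hφ) (hd2 hψ)]
  rfl

lemma lev_add {φ ψ : Cn n → ℝ} {W : Set (Cn n)} (hW : IsOpen W) (hφ : ContDiffOn ℝ ∞ φ W)
    (hψ : ContDiffOn ℝ ∞ ψ W) {x : Cn n} (hx : x ∈ W) (a : Cn n) :
    lev (fun y => φ y + ψ y) x a = lev φ x a + lev ψ x a := by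
  unfold lev
  rw [hess_add hW hφ hψ hx, hess_add hW hφ hψ hx]
  ring

end lev

section par

variable {n : ℕ} {M : Type v} [TopologicalSpace M] [ChartedSpace (Fin n → ℂ) M]

lemma par_comp {ψ : Cn n → M} {V W : Set (Cn n)} (hψ : Par n ψ V) (hW : IsOpen W)
    {σ : Cn n → Cn n} (hσ : DifferentiableOn ℂ σ W) (hm : MapsTo σ W V)
    (hdet : ∀ x ∈ W, (fderiv ℂ σ x).det ≠ 0) :
    Par n (ψ ∘ σ) W ∧ ∀ v : M → ℝ, (∀ y, 0 < v y) → ∀ x ∈ W,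
      lpot n v (ψ ∘ σ) x = lpot n v ψ (σ x) + Real.log (‖(fderiv ℂ σ x).det‖ ^ 2) := by
  obtain ⟨⟨hV, hh⟩, hj⟩ := hψ
  have hσm : ∀ x ∈ W, MDifferentiableAt 𝓘(ℂ, Fin n → ℂ) 𝓘(ℂ, Fin n → ℂ) σ x := fun x hx =>
    (hσ.differentiableAt (hW.mem_nhds hx)).mdifferentiableAt
  have hψm : ∀ x ∈ W, MDifferentiableAt 𝓘(ℂ, Fin n → ℂ) 𝓘(ℂ, Fin n → ℂ) ψ (σ x) := fun x hx =>
    (hh (σ x) (hm hx)).mdifferentiableAt (hV.mem_nhds (hm hx))
  have hjac : ∀ x ∈ W, jac n (ψ ∘ σ) x = jac n ψ (σ x) * (fderiv ℂ σ x).det := by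
    intro x hx
    rw [jac_comp (hψm x hx) (hσm x hx), jac_eq_fderiv]
  refine ⟨⟨⟨hW, ?_⟩, ?_⟩, ?_⟩
  · intro x hx
    exact ((hψm x hx).comp x (hσm x hx)).mdifferentiableWithinAt
  · intro x hx
    rw [hjac x hx]
    exact mul_ne_zero (hj _ (hm hx)) (hdet x hx)
  · intro v hv x hx
    unfold lpot
    rw [hjac x hx, norm_mul, mul_pow, ← mul_assoc, Real.log_mul]
    · rfl
    · have h1 := hv (ψ (σ x))
      have h2 := norm_pos_iff.2 (hj _ (hm hx))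
      show v (ψ (σ x)) * ‖jac n ψ (σ x)‖ ^ 2 ≠ 0
      positivity
    · have := norm_pos_iff.2 (hdet x hx)
      positivity

end par

lemma isOpen_prodS {b : ℕ} {U : Set (Cn b)} {Δ : Set ℂ} (hU : IsOpen U) (hΔ : IsOpen Δ) :
    IsOpen (prodS U Δ) := by
  unfold prodS
  refine (hU.preimage ?_).inter (hΔ.preimage ?_)
  · unfold base
    fun_prop
  · unfold lc
    fun_prop

lemma zero_mem_prodS {b : ℕ} {r : ℝ} (hr : 0 < r) :
    (0 : Cn (b + 1)) ∈ prodS (ball (0 : Cn b) r) (ball (0 : ℂ) r) := by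
  refine ⟨?_, ?_⟩
  · have : base (0 : Cn (b + 1)) = (0 : Cn b) := rfl
    rw [this]; exact mem_ball_self hr
  · have : lc (0 : Cn (b + 1)) = 0 := rfl
    rw [this]; exact mem_ball_self hr

theorem spec (hKV : S_KV) (hKHOL : S_KHOL.{u, v}) (hSTR : S_STR) (hNORMW : S_NORMW)
    (hWCH : S_WCH) : S_SPEC.{u, v} := by
  intro b G M _ _ _ _ _ _ h v D p
  set χ := chartAt (Fin (b + 1) → ℂ) p with hχ
  have hps : p ∈ χ.source := mem_chart_source _ p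
  have hx₀ : χ p ∈ χ.target := χ.map_source hps
  have hPar₀ : Par (b + 1) (χ.symm : Cn (b + 1) → M) χ.target :=
    ⟨⟨χ.open_target, mdiff_chart_symm p⟩, fun z hz => jac_chart_symm_ne_zero p hz⟩
  set ψ₀ : Cn (b + 1) → M := fun z => χ.symm z with hψ₀
  set Φ₀ := lpot (b + 1) v ψ₀ with hΦ₀
  have hsm₀ : ContDiffOn ℝ ∞ Φ₀ χ.target := D.met.smooth _ _ hPar₀
  have hc₀ : CorankOne Φ₀ χ.target := D.rank _ _ hPar₀
  obtain ⟨k1, -, k3, k4⟩ := hKV χ.target χ.open_target Φ₀ hsm₀ hc₀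
  obtain ⟨i, hi⟩ := k1 (χ p) hx₀
  have hhol := hKHOL D χ.target ψ₀ hPar₀ i
  obtain ⟨r, hr, σ₁, s1, s2, s3, s4, s5⟩ := hSTR (Wi i Φ₀ χ.target) (k3 i).1 (χ p) hi i
    (kv i Φ₀) hhol (fun x hx => (k4 i x hx).1)
  have hPo : IsOpen (prodS (ball (0 : Cn b) r) (ball (0 : ℂ) r)) := isOpen_prodS isOpen_ball isOpen_ball
  set P := prodS (ball (0 : Cn b) r) (ball (0 : ℂ) r) with hP
  have hm₁ : MapsTo σ₁ P χ.target := fun x hx => (s3 hx).1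
  obtain ⟨hPar₁, hl₁⟩ := par_comp hPar₀ hPo s1 hm₁ (fun x hx => (s5 x hx).1)
  have hsm₁ : ContDiffOn ℝ ∞ (lpot (b + 1) v (ψ₀ ∘ σ₁)) P := D.met.smooth _ _ hPar₁
  have hc₁ : CorankOne (lpot (b + 1) v (ψ₀ ∘ σ₁)) P := D.rank _ _ hPar₁
  have hdetd : DifferentiableOn ℂ (fun x => (fderiv ℂ σ₁ x).det) P :=
    Pool.Agent.Helper10.Abund.differentiableOn_det_fderiv hPo s1
  obtain ⟨w1, w2⟩ := hWCH
  obtain ⟨-, w3⟩ := w1 χ.target P χ.open_target hPo σ₁ s1 hm₁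
  obtain ⟨w4, w5⟩ := w2 P hPo (fun x => (fderiv ℂ σ₁ x).det) hdetd (fun x hx => (s5 x hx).1)
  have hσr : ContDiffOn ℝ ∞ σ₁ P := holo_contDiffOn_real hPo s1
  have hlev : ∀ x ∈ P, lev (lpot (b + 1) v (ψ₀ ∘ σ₁)) x (ew b) = 0 := by
    intro x hx
    have e1 : lpot (b + 1) v (ψ₀ ∘ σ₁) =ᶠ[𝓝 x]
        fun y => (Φ₀ ∘ σ₁) y + Real.log (‖(fderiv ℂ σ₁ y).det‖ ^ 2) := by
      filter_upwards [hPo.mem_nhds hx] with y hy
      exact hl₁ v D.met.pos y hy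
    rw [Pool.Agent.Helper9.Lin.lev_congr e1 (ew b),
      lev_add hPo (hsm₀.comp hσr hm₁) w4 hx, (w5 x hx).1, add_zero, (w3 Φ₀ hsm₀ x hx).1,
      (s5 x hx).2, ((k4 i (σ₁ x) (s3 hx)).2.2.2 _)]
    exact ⟨1, by simp⟩
  obtain ⟨r', hr', σ₂, Ψ, t1, t2, t3, t4, t5, t6, t7⟩ := hNORMW r hr
    (lpot (b + 1) v (ψ₀ ∘ σ₁)) hsm₁ hc₁ hlev
  have hPo' : IsOpen (prodS (ball (0 : Cn b) r') (ball (0 : ℂ) r')) :=
    isOpen_prodS isOpen_ball isOpen_ball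
  obtain ⟨hPar₂, hl₂⟩ := par_comp hPar₁ hPo' t1 t3 (fun x hx => (t7 x hx).1)
  refine ⟨r', hr', (ψ₀ ∘ σ₁) ∘ σ₂, Ψ, hPar₂, ?_, ?_, t5, t6, ?_⟩
  · have h0 : InjOn ψ₀ χ.target := χ.symm.injOn
    exact (h0.comp s2 hm₁).comp t2 t3
  · show ψ₀ (σ₁ (σ₂ 0)) = p
    rw [t4, s4]
    exact χ.left_inv hps
  · intro x hx
    rw [hl₂ v D.met.pos x hx]
    exact (t7 x hx).2.2

end Pool.Agent.Helper31.SP
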